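import Mathlib

/-! Exponential laws are not extremal for the tail ratio of i.i.d. sums. -/

namespace Pool.Agent.Results.MP_966169_pr.Counter

open Set Filter Topology MeasureTheory Real

/-- the ratio `R(z)` for two independent variables of law `μ` -/
noncomputable def R (μ : Measure ℝ) (z : ℝ) : ℝ :=
  (μ.prod μ).real {p | 2 * z ≤ p.1 + p.2 ∧ min p.1 p.2 ≤ z} /
    (μ.prod μ).real {p | 2 * z ≤ p.1 + p.2 ∧ z ≤ min p.1 p.2}

noncomputable def f (x : ℝ) : ℝ := (3 + x) * exp (-x) / 4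

noncomputable def S (x : ℝ) : ℝ := (4 + x) * exp (-x) / 4

noncomputable def μ : Measure ℝ := (volume.restrict (Ioi 0)).withDensity fun x => .ofReal (f x)

instance : NullSingletonClass μ := nullSingletonClass_withDensity _

theorem fc : Continuous f := by unfold f; fun_prop

theorem Sc : Continuous S := by unfold S; fun_prop

theorem f0 {x : ℝ} (h : 0 ≤ x) : 0 ≤ f x := by unfold f; positivity

theorem S0 {x : ℝ} (h : 0 ≤ x) : 0 < S x := by unfold S; positivity

theorem lim (a b c : ℝ) : Tendsto (fun x => (a * x ^ 2 + b * x + c) * exp (-x)) atTop (𝓝 0) := by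
  have h := tendsto_pow_mul_exp_neg_atTop_nhds_zero
  simpa [add_mul, mul_assoc] using (((h 2).const_mul a).add ((h 1).const_mul b)).add
    ((h 0).const_mul c)

theorem der (a b c x : ℝ) : HasDerivAt (fun x => (a * x ^ 2 + b * x + c) * exp (-x))
    ((-a * x ^ 2 + (2 * a - b) * x + (b - c)) * exp (-x)) x := by
  refine (((((hasDerivAt_pow 2 x).const_mul a).add ((hasDerivAt_id x).const_mul b)).add_const
    c).mul (hasDerivAt_neg x).exp).congr_deriv ?_
  simp
  ring

theorem tail {t : ℝ} (ht : 0 ≤ t) : μ (Ioi t) = .ofReal (S t) := by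
  have h1 : ∀ x ∈ Ici t, HasDerivAt (fun x => (0 * x ^ 2 + -1 / 4 * x + -1) * exp (-x)) (f x) x :=
    fun x _ => (der _ _ _ x).congr_deriv (by rw [f]; ring)
  have h2 : ∀ x ∈ Ioi t, 0 ≤ f x := fun x hx => f0 (ht.trans hx.le)
  rw [μ, withDensity_apply _ measurableSet_Ioi, Measure.restrict_restrict measurableSet_Ioi,
    Ioi_inter_Ioi, max_eq_left ht, ← ofReal_integral_eq_lintegral_ofReal
      (integrableOn_Ioi_deriv_of_nonneg' h1 h2 (lim _ _ _))
      (ae_restrict_of_forall_mem measurableSet_Ioi h2),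
    integral_Ioi_of_hasDerivAt_of_nonneg' h1 h2 (lim _ _ _), S]
  congr 1
  ring

theorem tail' {t : ℝ} (ht : 0 ≤ t) : μ (Ici t) = .ofReal (S t) :=
  (measure_congr Ioi_ae_eq_Ici).symm.trans (tail ht)

theorem neg : μ (Iic 0) = 0 := by
  rw [μ, withDensity_apply _ measurableSet_Iic, Measure.restrict_restrict measurableSet_Iic,
    Iic_inter_Ioi]
  simp

instance : IsProbabilityMeasure μ := ⟨by
  rw [← measure_add_measure_compl (measurableSet_Iic (a := 0)), neg, compl_Iic, tail le_rfl]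
  simp [S]⟩

theorem mean : Integrable id μ ∧ ∫ x, x ∂μ = 5 / 4 := by
  have h1 : ∀ x ∈ Ici (0 : ℝ), HasDerivAt
      (fun x => (-1 / 4 * x ^ 2 + -5 / 4 * x + -5 / 4) * exp (-x)) (f x * x) x :=
    fun x _ => (der _ _ _ x).congr_deriv (by rw [f]; ring)
  have h2 : ∀ x ∈ Ioi (0 : ℝ), 0 ≤ f x * x := fun x hx => mul_nonneg (f0 hx.le) hx.le
  have h3 : EqOn (fun x => f x * x) (fun x => (ENNReal.ofReal (f x)).toReal • x) (Ioi 0) :=
    fun x hx => by simp [ENNReal.toReal_ofReal (f0 hx.le)]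
  refine ⟨(integrable_withDensity_iff_integrable_smul' fc.measurable.ennreal_ofReal (by simp)).2
    ((integrableOn_Ioi_deriv_of_nonneg' h1 h2 (lim _ _ _)).congr_fun h3 measurableSet_Ioi), ?_⟩
  rw [μ, integral_withDensity_eq_integral_toReal_smul fc.measurable.ennreal_ofReal (by simp),
    ← setIntegral_congr_fun measurableSet_Ioi h3,
    integral_Ioi_of_hasDerivAt_of_nonneg' h1 h2 (lim _ _ _)]
  simp
  norm_num

theorem half {z : ℝ} (hz : 0 < z) : μ.prod μ {p | p.1 ≤ z ∧ 2 * z ≤ p.1 + p.2} =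
    .ofReal (exp (-z) ^ 2 / 16 * (12 * z + 13 / 2 * z ^ 2 + 2 / 3 * z ^ 3)) := by
  have h1 : ∀ x, μ (Prod.mk x ⁻¹' {p | p.1 ≤ z ∧ 2 * z ≤ p.1 + p.2}) =
      (Iic z).indicator (fun x => .ofReal (S (2 * z - x))) x := fun x => by
    by_cases h : x ≤ z
    · rw [indicator_of_mem (show x ∈ Iic z from h), ← tail' (by linarith)]
      congr 1
      ext y
      simp [h, add_comm]
    · simp [h]
  have h2 : Continuous fun x => S (2 * z - x) := Sc.comp (by fun_prop)
  rw [Measure.prod_apply (by measurability), lintegral_congr h1,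
    lintegral_indicator measurableSet_Iic, μ, setLIntegral_withDensity_eq_setLIntegral_mul _
      fc.measurable.ennreal_ofReal h2.measurable.ennreal_ofReal measurableSet_Iic,
    Measure.restrict_restrict measurableSet_Iic, inter_comm, Ioi_inter_Iic,
    setLIntegral_congr_fun measurableSet_Ioc (g := fun x => .ofReal (f x * S (2 * z - x)))
      (by exact fun x hx => (ENNReal.ofReal_mul (f0 hx.1.le)).symm),
    ← ofReal_integral_eq_lintegral_ofReal (f := fun x => f x * S (2 * z - x))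
      ((fc.mul h2).integrableOn_Icc.mono_set Ioc_subset_Icc_self)
      (ae_restrict_of_forall_mem measurableSet_Ioc fun x hx =>
        mul_nonneg (f0 hx.1.le) (S0 (by linarith [hx.2])).le),
    ← intervalIntegral.integral_of_le hz.le]
  have h3 : ∀ x, f x * S (2 * z - x) =
      exp (-z) ^ 2 / 16 * ((12 + 6 * z) + (1 + 2 * z) * x - x ^ 2) := fun x => by
    rw [f, S, sq (exp _), ← exp_add, show -z + -z = -x + -(2 * z - x) by ring, exp_add]
    ring
  simp only [h3]
  rw [intervalIntegral.integral_const_mul, intervalIntegral.integral_sub (by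
    apply Continuous.intervalIntegrable; fun_prop) (by simp), intervalIntegral.integral_add
      (by simp) (by apply Continuous.intervalIntegrable; fun_prop),
    intervalIntegral.integral_const_mul]
  congr 2
  simp
  ring

theorem bound {z : ℝ} (hz : 0 < z) : R μ z < 1.54 * z := by
  have h1 : {p : ℝ × ℝ | 2 * z ≤ p.1 + p.2 ∧ z ≤ min p.1 p.2} = Ici z ×ˢ Ici z := by
    ext p
    simp only [mem_ofPred_eq, le_min_iff, mem_prod, mem_Ici, and_iff_right_iff_imp]
    exact fun h => by linarith [h.1, h.2]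
  have h2 : μ.prod μ (Prod.swap ⁻¹' {p | p.1 ≤ z ∧ 2 * z ≤ p.1 + p.2}) = _ :=
    (Measure.measurePreserving_swap.measure_preimage (by measurability)).trans (half hz)
  have h3 := measureReal_union_le (μ := μ.prod μ) {p | p.1 ≤ z ∧ 2 * z ≤ p.1 + p.2}
    (Prod.swap ⁻¹' {p | p.1 ≤ z ∧ 2 * z ≤ p.1 + p.2})
  have h4 : (μ.prod μ).real {p | 2 * z ≤ p.1 + p.2 ∧ min p.1 p.2 ≤ z} ≤ _ :=
    (measureReal_mono fun p hp => (min_le_iff.1 hp.2).imp (fun h => ⟨h, hp.1⟩)
      fun h => ⟨h, hp.1.trans_eq (add_comm _ _)⟩).trans h3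
  rw [Measure.real, Measure.real, Measure.real, h2, half hz,
    ENNReal.toReal_ofReal (by positivity)] at h4
  rw [R, h1, Measure.real, Measure.real, Measure.prod_prod, tail' hz.le, ENNReal.toReal_mul,
    ENNReal.toReal_ofReal (S0 hz.le).le, div_lt_iff₀ (mul_pos (S0 hz.le) (S0 hz.le))]
  refine h4.trans_lt (sub_pos.1 ?_)
  have : 0 < exp (-z) ^ 2 * z * (0.04 - 0.0425 * z + 31 / 2400 * z ^ 2) :=
    mul_pos (by positivity) (by nlinarith [sq_nonneg (z - 1.645)])
  refine this.trans_eq ?_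
  rw [S]
  ring

theorem cdf {m : ℝ} (hm : 0 ≤ m) : μ.real (Iic m) = 1 - S m := by
  rw [← compl_Ioi, probReal_compl_eq_one_sub measurableSet_Ioi, Measure.real, tail hm,
    ENNReal.toReal_ofReal (S0 hm).le]

theorem result : ∃ μ : Measure ℝ, IsProbabilityMeasure μ ∧ μ ≪ volume ∧ μ (Iio 0) = 0 ∧
    (∀ t, 0 < μ (Ioi t)) ∧ Integrable id μ ∧ (∃ m, 0 ≤ m ∧ μ.real (Iic m) = 1 / 2) ∧
    ∀ z, 0 < z → R μ z < 2 * z / ∫ x, x ∂μ ∧
      ∀ m, 0 ≤ m → μ.real (Iic m) = 1 / 2 → R μ z < 2 * log 2 * z / m := by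
  have h9 : S 0.9 < 1 / 2 := by
    have h := sum_le_exp_of_nonneg (x := 0.9) (by norm_num) 5
    norm_num [Finset.sum_range_succ, Nat.factorial] at h
    rw [S, exp_neg, ← div_eq_mul_inv, div_div, div_lt_iff₀ (by positivity)]
    norm_num
    linarith
  refine ⟨μ, inferInstance, (withDensity_absolutelyContinuous _ _).trans
    Measure.absolutelyContinuous_restrict, measure_mono_null Iio_subset_Iic_self neg,
    fun t => lt_of_lt_of_le ?_ (measure_mono (Ioi_subset_Ioi (le_max_left t 0))), mean.1, ?_,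
    fun z hz => ⟨(bound hz).trans_le ?_, fun m hm h => (bound hz).trans_le ?_⟩⟩
  · rw [tail (le_max_right _ _)]
    exact ENNReal.ofReal_pos.2 (S0 (le_max_right _ _))
  · obtain ⟨m, h1, h2⟩ := intermediate_value_Icc' (show (0 : ℝ) ≤ 0.9 by norm_num) Sc.continuousOn
      (show 1 / 2 ∈ _ from ⟨h9.le, by norm_num [S]⟩)
    exact ⟨m, h1.1, by rw [cdf h1.1, h2]; norm_num⟩
  · rw [mean.2]
    linarith
  · have h1 : m ≤ 0.9 := not_lt.1 fun h1 => by
      have := measureReal_mono (μ := μ) (Iic_subset_Iic.2 h1.le)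
      rw [h, cdf (by norm_num)] at this
      linarith
    have h2 : 0 < m := hm.lt_of_ne fun h2 => by
      rw [← h2, Measure.real, neg] at h
      norm_num at h
    rw [le_div_iff₀ h2]
    nlinarith [log_two_gt_d9, mul_le_mul_of_nonneg_left h1 hz.le]

end Pool.Agent.Results.MP_966169_pr.Counter
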